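import Pool.Agent.R251.Typ.Piece

set_option autoImplicit false

/-! Approximation of Kakeya sets by finite unions of affine images of a given one. -/

open MeasureTheory Set Metric
open scoped ENNReal NNReal

namespace Pool.Agent.R251.Typ

variable {n : ℕ}

/-- `K'` is covered by a finite set and finitely many affine images of `K₀`. -/
def Fab (K₀ K' : Set (E n)) : Prop :=
  ∃ (F : Set (E n)) (J : Finset ((E n ≃L[ℝ] E n) × E n)), F.Finite ∧
    K' ⊆ F ∪ ⋃ g ∈ J, (fun x => g.1 x + g.2) '' K₀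

theorem dense_step {K K₀ : Set (E n)} (hK : IsCompact K) (hKs : HasSegs K) (hKne : K.Nonempty)
    (hc : IsCompact K₀) (hs : HasSegs K₀) {η : ℝ} (hη : 0 < η) :
    ∃ K' : Set (E n), IsCompact K' ∧ HasSegs K' ∧ K'.Nonempty ∧
      (∀ x ∈ K', ∃ y ∈ K, dist x y ≤ η) ∧ (∀ y ∈ K, ∃ x ∈ K', dist y x ≤ η) ∧ Fab K₀ K' := by
  classical
  choose! a ha using hKs
  choose! r hr0 J hJ using fun (e₀ : E n) (he₀ : ‖e₀‖ = 1) => piece hc.isBounded hs he₀ hη
  obtain ⟨t, ht1, ht2⟩ := (isCompact_sphere (0 : E n) 1).elim_nhds_subcover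
    (fun e₀ => ball e₀ (r e₀)) (fun e₀ he₀ => ball_mem_nhds _ (hr0 e₀ (by simpa using he₀)))
  obtain ⟨F, hFK, hFfin, hFcov⟩ := hK.finite_cover_balls hη
  set sg : E n → Set (E n) := fun e₀ => (fun t : ℝ => t • e₀) '' Icc (0:ℝ) 1 with hsg
  have hsgc : ∀ e₀, IsCompact (sg e₀) := fun e₀ => isCompact_Icc.image (by fun_prop)
  set P : E n → Set (E n) := fun e₀ =>
    (⋃ g ∈ J e₀, (fun x => g.1 x + g.2) '' K₀) ∩ cthickening η (sg e₀) with hP
  have hPc : ∀ e₀, IsCompact (P e₀) := by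
    intro e₀
    apply IsCompact.inter_right _ isClosed_cthickening
    apply (J e₀).finite_toSet.isCompact_biUnion
    intro g _
    exact hc.image (g.1.continuous.add continuous_const)
  set K' : Set (E n) := F ∪ ⋃ e₀ ∈ t, (fun x => a e₀ + x) '' P e₀ with hK'
  refine ⟨K', ?_, ?_, ?_, ?_, ?_, ?_⟩
  · apply hFfin.isCompact.union
    apply t.finite_toSet.isCompact_biUnion
    intro e₀ _
    exact (hPc e₀).image (by fun_prop)
  · intro e he
    have hes : e ∈ sphere (0 : E n) 1 := by simpa using he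
    obtain ⟨e₀, he₀, hee⟩ := mem_iUnion₂.1 (ht2 hes)
    have he₀1 : ‖e₀‖ = 1 := by simpa using ht1 e₀ he₀
    rw [mem_ball, dist_eq_norm] at hee
    obtain ⟨c, hc1⟩ := hJ e₀ he₀1 e he hee
    refine ⟨a e₀ + c, fun s hs' => ?_⟩
    obtain ⟨h1, h2⟩ := hc1 s hs'
    right
    refine mem_iUnion₂.2 ⟨e₀, he₀, c + s • e, ⟨h1, ?_⟩, ?_⟩
    · apply mem_cthickening_of_dist_le _ (s • e₀) _ _ (show s • e₀ ∈ sg e₀ from ⟨s, hs', rfl⟩)
      rw [dist_eq_norm]; exact h2
    · show a e₀ + (c + s • e) = a e₀ + c + s • e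
      abel
  · obtain ⟨y, hy⟩ := hKne
    obtain ⟨x, hx, _⟩ := mem_iUnion₂.1 (hFcov hy)
    exact ⟨x, Or.inl hx⟩
  · rintro x (hx | hx)
    · exact ⟨x, hFK hx, by rw [dist_self]; exact hη.le⟩
    · obtain ⟨e₀, he₀, p, hp, rfl⟩ := mem_iUnion₂.1 hx
      have he₀1 : ‖e₀‖ = 1 := by simpa using ht1 e₀ he₀
      have hp2 := hp.2
      rw [(hsgc e₀).cthickening_eq_biUnion_closedBall hη.le] at hp2
      obtain ⟨q, ⟨s, hs', rfl⟩, hq⟩ := mem_iUnion₂.1 hp2
      refine ⟨a e₀ + s • e₀, ha e₀ he₀1 s hs', ?_⟩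
      show dist (a e₀ + p) (a e₀ + s • e₀) ≤ η
      rw [dist_add_left]
      exact hq
  · intro y hy
    obtain ⟨x, hx, hxy⟩ := mem_iUnion₂.1 (hFcov hy)
    exact ⟨x, Or.inl hx, le_of_lt hxy⟩
  · refine ⟨F, t.biUnion fun e₀ => (J e₀).image fun g => (g.1, a e₀ + g.2), hFfin, ?_⟩
    rintro x (hx | hx)
    · exact Or.inl hx
    · right
      obtain ⟨e₀, he₀, p, hp, rfl⟩ := mem_iUnion₂.1 hx
      obtain ⟨g, hg, y, hy, rfl⟩ := mem_iUnion₂.1 hp.1
      refine mem_iUnion₂.2 ⟨(g.1, a e₀ + g.2), ?_, y, hy, ?_⟩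
      · exact Finset.mem_biUnion.2 ⟨e₀, he₀, Finset.mem_image.2 ⟨g, hg, rfl⟩⟩
      · show g.1 y + (a e₀ + g.2) = a e₀ + (g.1 y + g.2)
        abel

/-- Hausdorff measure -/
theorem Fab.hausdorff {K₀ K' : Set (E n)} (h : Fab K₀ K') {s : ℝ} (hs : 0 < s)
    (h0 : μH[s] K₀ = 0) : μH[s] K' = 0 := by
  obtain ⟨F, J, hF, hsub⟩ := h
  refine measure_mono_null hsub (measure_union_null ?_ ?_)
  · have := Measure.nullSingletonClass_hausdorff (E n) hs
    exact hF.measure_zero _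
  · refine (measure_biUnion_null_iff J.countable_toSet).2 fun g _ => ?_
    have h1 : LipschitzWith ‖(g.1 : E n →L[ℝ] E n)‖₊ (fun x => g.1 x + g.2) := by
      apply LipschitzWith.of_dist_le_mul
      intro x y
      rw [dist_add_right]
      exact (g.1 : E n →L[ℝ] E n).lipschitz.dist_le_mul x y
    have h2 := h1.hausdorffMeasure_image_le hs.le K₀
    rw [h0, mul_zero] at h2
    exact le_antisymm h2 zero_le

/-- Volumes of neighbourhoods -/
theorem Fab.vol {K₀ K' : Set (E n)} (h : Fab K₀ K') :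
    ∃ C M : ℝ, 0 < C ∧ 1 ≤ M ∧ ∀ δ : ℝ, 0 < δ → volume (thickening δ K') ≤
      ENNReal.ofReal (C * δ ^ n) + ENNReal.ofReal C * volume (thickening (M * δ) K₀) := by
  classical
  obtain ⟨F, J, hF, hsub⟩ := h
  set M : ℝ := 1 + ∑ g ∈ J, ‖(g.1.symm : E n →L[ℝ] E n)‖ with hM
  have hM1 : ∀ g ∈ J, ‖(g.1.symm : E n →L[ℝ] E n)‖ ≤ M := by
    intro g hg
    have := Finset.single_le_sum (f := fun g : (E n ≃L[ℝ] E n) × E n =>
      ‖(g.1.symm : E n →L[ℝ] E n)‖) (fun _ _ => norm_nonneg _) hg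
    rw [hM]; linarith
  have hM0 : 0 < M := by
    have : 0 ≤ ∑ g ∈ J, ‖(g.1.symm : E n →L[ℝ] E n)‖ := Finset.sum_nonneg fun _ _ => norm_nonneg _
    rw [hM]; linarith
  have hM2 : 1 ≤ M := by
    have : 0 ≤ ∑ g ∈ J, ‖(g.1.symm : E n →L[ℝ] E n)‖ := Finset.sum_nonneg fun _ _ => norm_nonneg _
    rw [hM]; linarith
  set ω : ℝ := (volume (ball (0 : E n) 1)).toReal with hω
  set C : ℝ := 1 + hF.toFinset.card * ω + ∑ g ∈ J, |LinearMap.det ((g.1 : E n →L[ℝ] E n) : E n →ₗ[ℝ] E n)|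
    with hC
  have hω0 : 0 ≤ ω := ENNReal.toReal_nonneg
  have hd0 : 0 ≤ ∑ g ∈ J, |LinearMap.det ((g.1 : E n →L[ℝ] E n) : E n →ₗ[ℝ] E n)| :=
    Finset.sum_nonneg fun _ _ => abs_nonneg _
  have hF0 : 0 ≤ (hF.toFinset.card : ℝ) * ω := by positivity
  refine ⟨C, M, by rw [hC]; linarith, hM2, ?_⟩
  intro δ hδ
  have hthick : thickening δ K' ⊆ (⋃ x ∈ hF.toFinset, ball x δ) ∪
      ⋃ g ∈ J, (fun x => g.1 x + g.2) '' thickening (M * δ) K₀ := by
    intro y hy
    obtain ⟨x, hx, hxy⟩ := mem_thickening_iff.1 hy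
    rcases hsub hx with hx | hx
    · left
      exact mem_iUnion₂.2 ⟨x, by simpa using hx, hxy⟩
    · right
      obtain ⟨g, hg, z, hz, rfl⟩ := mem_iUnion₂.1 hx
      refine mem_iUnion₂.2 ⟨g, hg, g.1.symm (y - g.2), ?_, ?_⟩
      · rw [mem_thickening_iff]
        refine ⟨z, hz, ?_⟩
        have h1 : z = g.1.symm ((g.1 z + g.2) - g.2) := by
          rw [add_sub_cancel_right, ContinuousLinearEquiv.symm_apply_apply]
        rw [h1]
        have h2 := (g.1.symm : E n →L[ℝ] E n).lipschitz.dist_le_mul (y - g.2) (g.1 z + g.2 - g.2)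
        rw [dist_sub_right] at h2
        have h3 : dist y (g.1 z + g.2) < δ := hxy
        calc dist (g.1.symm (y - g.2)) (g.1.symm (g.1 z + g.2 - g.2))
            ≤ ‖(g.1.symm : E n →L[ℝ] E n)‖ * dist y (g.1 z + g.2) := h2
          _ ≤ M * dist y (g.1 z + g.2) := by gcongr; exact hM1 g hg
          _ < M * δ := by gcongr
      · show g.1 (g.1.symm (y - g.2)) + g.2 = y
        rw [ContinuousLinearEquiv.apply_symm_apply, sub_add_cancel]
  refine (measure_mono hthick).trans ((measure_union_le _ _).trans (add_le_add ?_ ?_))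
  · refine (measure_biUnion_finset_le _ _).trans ?_
    have hb : ∀ x : E n, MeasureTheory.volume (ball x δ) = ENNReal.ofReal (δ ^ n * ω) := by
      intro x
      rw [Measure.addHaar_ball_of_pos _ _ hδ, finrank_euclideanSpace_fin, hω,
        ENNReal.ofReal_mul (by positivity), ENNReal.ofReal_toReal measure_ball_lt_top.ne]
    rw [Finset.sum_congr rfl fun x _ => hb x, Finset.sum_const, nsmul_eq_mul,
      ← ENNReal.ofReal_natCast, ← ENNReal.ofReal_mul (by positivity)]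
    apply ENNReal.ofReal_le_ofReal
    have h1 : (hF.toFinset.card : ℝ) * ω ≤ C := by rw [hC]; linarith
    calc (hF.toFinset.card : ℝ) * (δ ^ n * ω) = (hF.toFinset.card * ω) * δ ^ n := by ring
      _ ≤ C * δ ^ n := by gcongr
  · refine (measure_biUnion_finset_le _ _).trans ?_
    have hb : ∀ g ∈ J, MeasureTheory.volume ((fun x => g.1 x + g.2) '' thickening (M * δ) K₀) =
        ENNReal.ofReal |LinearMap.det ((g.1 : E n →L[ℝ] E n) : E n →ₗ[ℝ] E n)| *
          MeasureTheory.volume (thickening (M * δ) K₀) := by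
      intro g _
      have h1 : (fun x => g.1 x + g.2) '' thickening (M * δ) K₀ =
          (fun x => x + g.2) '' ((g.1 : E n →L[ℝ] E n) '' thickening (M * δ) K₀) := by
        rw [image_image]; rfl
      rw [h1, Set.image_add_right, measure_preimage_add_right, Measure.addHaar_image_continuousLinearMap]
    rw [Finset.sum_congr rfl hb, ← Finset.sum_mul]
    gcongr
    rw [← ENNReal.ofReal_sum_of_nonneg fun _ _ => abs_nonneg _]
    apply ENNReal.ofReal_le_ofReal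
    rw [hC]; linarith

end Pool.Agent.R251.Typ
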