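import Pool.Agent.R251.Typ.Dense

set_option autoImplicit false

/-! The space of Kakeya sets and the Hausdorff dimension of its typical elements. -/

open MeasureTheory Set Metric Filter Topology TopologicalSpace
open scoped ENNReal NNReal

namespace Pool.Agent.R251.Typ

variable {n : ℕ}

/-- The Kakeya sets among the nonempty compact sets. -/
abbrev KS (n : ℕ) : Type :=
  {K : NonemptyCompacts (E n) // HasSegs (K : Set (E n))}

theorem dist_fin (K L : NonemptyCompacts (E n)) :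
    hausdorffEDist (K : Set (E n)) L ≠ ⊤ :=
  hausdorffEDist_ne_top_of_nonempty_of_bounded K.nonempty L.nonempty K.isCompact.isBounded
    L.isCompact.isBounded

theorem isClosed_KS : IsClosed {K : NonemptyCompacts (E n) | HasSegs (K : Set (E n))} := by
  apply IsSeqClosed.isClosed
  intro Kj K hKj hlim e he
  choose a ha using fun j => hKj j e he
  have hd : Tendsto (fun j => hausdorffDist (Kj j : Set (E n)) K) atTop (𝓝 0) := by
    have := tendsto_iff_dist_tendsto_zero.1 hlim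
    simpa [NonemptyCompacts.dist_eq] using this
  choose b hb hab using fun j => K.isCompact.exists_infDist_eq_dist K.nonempty (a j)
  obtain ⟨c, hc, φ, hφ, hcl⟩ := K.isCompact.tendsto_subseq hb
  have h0 : Tendsto (fun j => dist (a j) (b j)) atTop (𝓝 0) := by
    refine squeeze_zero (fun _ => dist_nonneg) (fun j => ?_) hd
    rw [← hab j]
    apply infDist_le_hausdorffDist_of_mem _ (dist_fin _ _)
    have := ha j 0 ⟨le_rfl, zero_le_one⟩
    rwa [zero_smul, add_zero] at this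
  have h1 : Tendsto (fun j => a (φ j)) atTop (𝓝 c) := by
    rw [tendsto_iff_dist_tendsto_zero] at hcl ⊢
    have h2 := (h0.comp hφ.tendsto_atTop).add hcl
    rw [add_zero] at h2
    exact squeeze_zero (fun _ => dist_nonneg) (fun j => dist_triangle _ _ _) h2
  refine ⟨c, fun t ht => ?_⟩
  have h2 : Tendsto (fun j => infDist (a (φ j) + t • e) (K : Set (E n))) atTop
      (𝓝 (infDist (c + t • e) (K : Set (E n)))) :=
    ((continuous_infDist_pt _).tendsto _).comp (h1.add tendsto_const_nhds)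
  have h3 : Tendsto (fun j => infDist (a (φ j) + t • e) (K : Set (E n))) atTop (𝓝 0) := by
    refine squeeze_zero (fun _ => infDist_nonneg) (fun j => ?_) (hd.comp hφ.tendsto_atTop)
    exact infDist_le_hausdorffDist_of_mem (ha (φ j) t ht) (dist_fin _ _)
  have h4 := tendsto_nhds_unique h2 h3
  exact (K.isCompact.isClosed.mem_iff_infDist_zero K.nonempty).2 h4

instance : CompleteSpace (KS n) := isClosed_KS.completeSpace_coe

/-- bundling -/
def mkKS {K : Set (E n)} (h1 : IsCompact K) (h2 : HasSegs K) (h3 : K.Nonempty) : KS n :=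
  ⟨⟨⟨K, h1⟩, h3⟩, h2⟩

instance : Nonempty (KS n) := by
  refine ⟨mkKS (isCompact_closedBall (0 : E n) 1) ?_ ⟨0, mem_closedBall_self zero_le_one⟩⟩
  intro e he
  refine ⟨0, fun t ht => ?_⟩
  rw [zero_add, mem_closedBall_zero_iff, norm_smul, he, mul_one, Real.norm_of_nonneg ht.1]
  exact ht.2

/-- the approximation step -/
theorem dense_step' (K K₀ : KS n) {r : ℝ} (hr : 0 < r) :
    ∃ K' : KS n, dist K' K < r ∧ Fab (K₀.1 : Set (E n)) (K'.1 : Set (E n)) := by
  obtain ⟨K', h1, h2, h3, h4, h5, h6⟩ := dense_step K.1.isCompact K.2 K.1.nonempty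
    K₀.1.isCompact K₀.2 (half_pos hr)
  refine ⟨mkKS h1 h2 h3, ?_, h6⟩
  have h7 : dist (mkKS h1 h2 h3) K ≤ r / 2 := by
    rw [Subtype.dist_eq, NonemptyCompacts.dist_eq]
    exact hausdorffDist_le_of_mem_dist (half_pos hr).le h4 h5
  linarith

theorem sub_thick {K L : KS n} {r : ℝ} (h : dist K L < r) :
    (K.1 : Set (E n)) ⊆ thickening r (L.1 : Set (E n)) := by
  intro x hx
  rw [mem_thickening_iff_infDist_lt L.1.nonempty]
  refine lt_of_le_of_lt (infDist_le_hausdorffDist_of_mem hx (dist_fin _ _)) ?_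
  rwa [Subtype.dist_eq, NonemptyCompacts.dist_eq] at h

/-- Efficient covers of sets of Hausdorff measure zero. -/
theorem cover {σ : ℝ} (hσ : 0 < σ) {C : Set (E n)} (hC : μH[σ] C = 0) {η : ℝ} (hη : 0 < η) :
    ∃ (c : ℕ → E n) (ρ : ℕ → ℝ), (∀ j, 0 < ρ j ∧ ρ j ≤ η) ∧ C ⊆ ⋃ j, closedBall (c j) (ρ j) ∧
      ∑' j, ENNReal.ofReal (ρ j ^ σ) ≤ ENNReal.ofReal η := by
  classical
  rw [Measure.hausdorffMeasure_apply] at hC
  have hr : (0 : ℝ≥0∞) < ENNReal.ofReal η := ENNReal.ofReal_pos.2 hη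
  have h1 : (⨅ (t : ℕ → Set (E n)) (_ : C ⊆ ⋃ n, t n) (_ : ∀ n, ediam (t n) ≤ ENNReal.ofReal η),
      ∑' n, ⨆ _ : (t n).Nonempty, ediam (t n) ^ σ) = 0 := by
    refine le_antisymm ?_ zero_le
    rw [← hC]
    exact le_iSup₂ (f := fun (r : ℝ≥0∞) (_ : 0 < r) => ⨅ (t : ℕ → Set (E n)) (_ : C ⊆ ⋃ n, t n)
      (_ : ∀ n, ediam (t n) ≤ r), ∑' n, ⨆ _ : (t n).Nonempty, ediam (t n) ^ σ)
      (ENNReal.ofReal η) hr
  have hhalf : (0 : ℝ≥0∞) < ENNReal.ofReal (η / 2) := ENNReal.ofReal_pos.2 (by positivity)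
  rw [← h1, iInf_lt_iff] at hhalf
  obtain ⟨t, ht⟩ := hhalf
  rw [iInf_lt_iff] at ht
  obtain ⟨hcov, ht⟩ := ht
  rw [iInf_lt_iff] at ht
  obtain ⟨hdiam, hsum⟩ := ht
  obtain ⟨ε, hε, hεsum⟩ := ENNReal.exists_pos_sum_of_countable
    (ε := ENNReal.ofReal (η / 2)) (ENNReal.ofReal_pos.2 (by positivity)).ne' ℕ
  have hfin : ∀ j, ediam (t j) ≠ ∞ := fun j => ((hdiam j).trans_lt ENNReal.ofReal_lt_top).ne
  set ρ : ℕ → ℝ := fun j => max (ediam (t j)).toReal (min η ((ε j : ℝ) ^ (1 / σ))) with hρ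
  set c : ℕ → E n := fun j => if h : (t j).Nonempty then h.some else 0 with hc
  have hε' : ∀ j, (0:ℝ) < ε j := fun j => by exact_mod_cast hε j
  have hb0 : ∀ j, 0 < min η ((ε j : ℝ) ^ (1 / σ)) := fun j =>
    lt_min hη (Real.rpow_pos_of_pos (hε' j) _)
  have hρ0 : ∀ j, 0 < ρ j := fun j => lt_of_lt_of_le (hb0 j) (le_max_right _ _)
  have hsup : ∀ j, (⨆ _ : (t j).Nonempty, ediam (t j) ^ σ) = ediam (t j) ^ σ := by
    intro j
    rcases (t j).eq_empty_or_nonempty with h0 | h0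
    · rw [h0, ediam_empty, ENNReal.zero_rpow_of_pos hσ]
      simp
    · simp [h0]
  refine ⟨c, ρ, fun j => ⟨hρ0 j, max_le (ENNReal.toReal_le_of_le_ofReal hη.le (hdiam j))
    (min_le_left _ _)⟩, ?_, ?_⟩
  · intro x hx
    obtain ⟨j, hj⟩ := mem_iUnion.1 (hcov hx)
    have hne : (t j).Nonempty := ⟨x, hj⟩
    refine mem_iUnion.2 ⟨j, ?_⟩
    have hcj : c j ∈ t j := by
      rw [hc]
      simp only [hne, dif_pos]
      exact hne.some_mem
    rw [mem_closedBall, dist_edist]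
    refine le_trans ?_ (le_max_left _ _)
    exact ENNReal.toReal_mono (hfin j) (edist_le_ediam_of_mem hj hcj)
  · have hterm : ∀ j, ENNReal.ofReal (ρ j ^ σ) ≤ ediam (t j) ^ σ + ε j := by
      intro j
      rcases le_total (min η ((ε j : ℝ) ^ (1 / σ))) (ediam (t j)).toReal with h | h
      · have : ρ j = (ediam (t j)).toReal := max_eq_left h
        rw [this, ← ENNReal.ofReal_rpow_of_nonneg ENNReal.toReal_nonneg hσ.le,
          ENNReal.ofReal_toReal (hfin j)]
        exact le_self_add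
      · have : ρ j = min η ((ε j : ℝ) ^ (1 / σ)) := max_eq_right h
        rw [this]
        refine le_trans ?_ (le_add_self)
        rw [← ENNReal.ofReal_coe_nnreal]
        apply ENNReal.ofReal_le_ofReal
        calc (min η ((ε j : ℝ) ^ (1 / σ))) ^ σ ≤ ((ε j : ℝ) ^ (1 / σ)) ^ σ :=
              Real.rpow_le_rpow (hb0 j).le (min_le_right _ _) hσ.le
          _ = ε j := by
              rw [← Real.rpow_mul (hε' j).le, one_div_mul_cancel hσ.ne', Real.rpow_one]
    calc ∑' j, ENNReal.ofReal (ρ j ^ σ) ≤ ∑' j, (ediam (t j) ^ σ + ε j) :=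
          ENNReal.tsum_le_tsum hterm
      _ = ∑' j, ediam (t j) ^ σ + ∑' j, (ε j : ℝ≥0∞) := ENNReal.tsum_add
      _ ≤ ENNReal.ofReal (η / 2) + ENNReal.ofReal (η / 2) := by
          simp only [hsup] at hsum
          exact add_le_add hsum.le hεsum.le
      _ = ENNReal.ofReal η := by
          rw [← ENNReal.ofReal_add (by positivity) (by positivity)]
          congr 1
          ring

/-- covers by small open balls -/
def Cov (s ε : ℝ) (K : Set (E n)) : Prop :=
  ∃ (c : ℕ → E n) (ρ : ℕ → ℝ), (∀ j, 0 < ρ j ∧ ρ j ≤ ε) ∧ K ⊆ ⋃ j, ball (c j) (ρ j) ∧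
      ∑' j, ENNReal.ofReal (ρ j ^ s) ≤ ENNReal.ofReal ε

theorem cov_of_null {s : ℝ} (hs : 0 < s) {K : Set (E n)} (hK : μH[s] K = 0) {ε : ℝ}
    (hε : 0 < ε) : Cov s ε K := by
  set η : ℝ := min (ε / 2) (ε / 2 ^ s) with hη
  have h2s : (0:ℝ) < 2 ^ s := by positivity
  have hη0 : 0 < η := lt_min (by positivity) (by positivity)
  obtain ⟨c, ρ, hρ, hcov, hsum⟩ := cover hs hK hη0
  refine ⟨c, fun j => 2 * ρ j, fun j => ⟨by linarith [(hρ j).1], ?_⟩, ?_, ?_⟩
  · have h1 := (hρ j).2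
    have h2 : η ≤ ε / 2 := min_le_left _ _
    linarith
  · refine hcov.trans (iUnion_mono fun j => closedBall_subset_ball ?_)
    linarith [(hρ j).1]
  · have h1 : ∀ j, ENNReal.ofReal ((2 * ρ j) ^ s) =
        ENNReal.ofReal (2 ^ s) * ENNReal.ofReal (ρ j ^ s) := by
      intro j
      rw [Real.mul_rpow (by norm_num) (hρ j).1.le, ENNReal.ofReal_mul h2s.le]
    simp only [h1]
    rw [ENNReal.tsum_mul_left]
    calc ENNReal.ofReal (2 ^ s) * ∑' j, ENNReal.ofReal (ρ j ^ s)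
        ≤ ENNReal.ofReal (2 ^ s) * ENNReal.ofReal η := by gcongr
      _ = ENNReal.ofReal (2 ^ s * η) := (ENNReal.ofReal_mul h2s.le).symm
      _ ≤ ENNReal.ofReal ε := by
          apply ENNReal.ofReal_le_ofReal
          have : η ≤ ε / 2 ^ s := min_le_right _ _
          calc 2 ^ s * η ≤ 2 ^ s * (ε / 2 ^ s) := by gcongr
            _ = ε := by field_simp

theorem isOpen_cov (s ε : ℝ) : IsOpen {K : KS n | Cov s ε (K.1 : Set (E n))} := by
  rw [Metric.isOpen_iff]
  rintro K ⟨c, ρ, h1, h2, h3⟩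
  obtain ⟨r, hr, hsub⟩ := K.1.isCompact.exists_thickening_subset_open
    (isOpen_iUnion fun j => isOpen_ball) h2
  refine ⟨r, hr, fun L hL => ⟨c, ρ, h1, (sub_thick hL).trans hsub, h3⟩⟩

theorem dense_cov {s : ℝ} (hs : 0 < s) {K₀ : KS n} (hK₀ : μH[s] (K₀.1 : Set (E n)) = 0) {ε : ℝ}
    (hε : 0 < ε) : Dense {K : KS n | Cov s ε (K.1 : Set (E n))} := by
  rw [Metric.dense_iff]
  intro K r hr
  obtain ⟨K', h1, h2⟩ := dense_step' K K₀ hr
  exact ⟨K', h1, cov_of_null hs (h2.hausdorff hs hK₀) hε⟩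

theorem ediam_ball_le (x : E n) {r : ℝ} : ediam (ball x r) ≤ ENNReal.ofReal (2 * r) := by
  rw [← eball_ofReal, ENNReal.ofReal_mul (by norm_num), ENNReal.ofReal_ofNat]
  exact ediam_eball_le

theorem dim_of_cov {s : ℝ≥0} {K : Set (E n)}
    (h : ∀ m : ℕ, Cov s (1 / ((m:ℝ) + 1)) K) : dimH K ≤ s := by
  apply dimH_le_of_hausdorffMeasure_ne_top
  choose c ρ h1 h2 h3 using h
  have hlim : Tendsto (fun m : ℕ => ENNReal.ofReal (2 * (1 / ((m:ℝ) + 1)))) atTop (𝓝 0) := by
    have h4 := ENNReal.tendsto_ofReal ((tendsto_one_div_add_atTop_nhds_zero_nat (𝕜 := ℝ)).const_mul 2)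
    rwa [mul_zero, ENNReal.ofReal_zero] at h4
  have h5 := Measure.hausdorffMeasure_le_liminf_tsum (s : ℝ) K
    (fun m : ℕ => ENNReal.ofReal (2 * (1 / ((m:ℝ) + 1)))) hlim
    (fun m j => ball (c m j) (ρ m j))
    (Eventually.of_forall fun m j => (ediam_ball_le _).trans
      (ENNReal.ofReal_le_ofReal (mul_le_mul_of_nonneg_left (h1 m j).2 (by norm_num))))
    (Eventually.of_forall fun m => h2 m)
  have h6 : ∀ m : ℕ, ∑' j, ediam (ball (c m j) (ρ m j)) ^ (s:ℝ) ≤ ENNReal.ofReal (2 ^ (s:ℝ)) := by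
    intro m
    have h7 : ∀ j, ediam (ball (c m j) (ρ m j)) ^ (s:ℝ) ≤
        ENNReal.ofReal (2 ^ (s:ℝ)) * ENNReal.ofReal (ρ m j ^ (s:ℝ)) := by
      intro j
      rw [← ENNReal.ofReal_mul (by positivity), ← Real.mul_rpow (by norm_num) (h1 m j).1.le,
        ← ENNReal.ofReal_rpow_of_nonneg (by linarith [(h1 m j).1]) s.coe_nonneg]
      exact ENNReal.rpow_le_rpow (ediam_ball_le _) s.coe_nonneg
    calc ∑' j, ediam (ball (c m j) (ρ m j)) ^ (s:ℝ)
        ≤ ∑' j, ENNReal.ofReal (2 ^ (s:ℝ)) * ENNReal.ofReal (ρ m j ^ (s:ℝ)) :=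
          ENNReal.tsum_le_tsum h7
      _ = ENNReal.ofReal (2 ^ (s:ℝ)) * ∑' j, ENNReal.ofReal (ρ m j ^ (s:ℝ)) :=
          ENNReal.tsum_mul_left
      _ ≤ ENNReal.ofReal (2 ^ (s:ℝ)) * ENNReal.ofReal (1 / ((m:ℝ) + 1)) := by gcongr; exact h3 m
      _ ≤ ENNReal.ofReal (2 ^ (s:ℝ)) * 1 := by
          gcongr
          rw [ENNReal.ofReal_le_one, div_le_one (by positivity)]
          have : (0:ℝ) ≤ m := by positivity
          linarith
      _ = _ := mul_one _
  have h8 : μH[(s:ℝ)] K ≤ ENNReal.ofReal (2 ^ (s:ℝ)) := by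
    refine h5.trans (liminf_le_of_frequently_le' ?_)
    exact (Eventually.of_forall h6).frequently
  exact (h8.trans_lt ENNReal.ofReal_lt_top).ne

/-- The Hausdorff dimension of a typical Kakeya set is minimal. -/
theorem typical_dimH : ∀ᶠ K in residual (KS n), ∀ K' : KS n,
    dimH (K.1 : Set (E n)) ≤ dimH (K'.1 : Set (E n)) := by
  have h1 : ∀ q : ℚ, ∀ᶠ K in residual (KS n), ∀ K' : KS n,
      dimH (K'.1 : Set (E n)) < (Real.toNNReal q : ℝ≥0∞) →
        dimH (K.1 : Set (E n)) ≤ (Real.toNNReal q : ℝ≥0∞) := by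
    intro q
    by_cases hq : ∃ K' : KS n, dimH (K'.1 : Set (E n)) < (Real.toNNReal q : ℝ≥0∞)
    · obtain ⟨K₀, hK₀⟩ := hq
      have hpos : 0 < Real.toNNReal q := by
        have := lt_of_le_of_lt zero_le hK₀
        exact_mod_cast this
      have h2 : ∀ m : ℕ, ∀ᶠ K in residual (KS n),
          Cov (Real.toNNReal q : ℝ) (1 / ((m:ℝ) + 1)) (K.1 : Set (E n)) := by
        intro m
        exact residual_of_dense_open (isOpen_cov _ _)
          (dense_cov (by exact_mod_cast hpos) (hausdorffMeasure_of_dimH_lt hK₀) (by positivity))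
      rw [← eventually_countable_forall] at h2
      filter_upwards [h2] with K hK K' _
      exact dim_of_cov hK
    · push Not at hq
      exact Eventually.of_forall fun K K' hK' => absurd hK' (not_lt.2 (hq K'))
  rw [← eventually_countable_forall] at h1
  filter_upwards [h1] with K hK K'
  by_contra hcon
  push Not at hcon
  obtain ⟨q, _, hq1, hq2⟩ := ENNReal.lt_iff_exists_rat_btwn.1 hcon
  exact absurd (hK q K' hq1) (not_le.2 hq2)

end Pool.Agent.R251.Typ
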