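import Pool.Agent.R251.Typ.Haus

set_option autoImplicit false

/-! Minkowski dimensions of typical Kakeya sets. -/

open MeasureTheory Set Metric Filter Topology TopologicalSpace
open scoped ENNReal NNReal

namespace Pool.Agent.R251.Typ

variable {n : ℕ}

/-- The exponent at scale `δ`. -/
noncomputable def mexp (K : Set (E n)) (δ : ℝ) : ℝ :=
  (n:ℝ) - Real.log (volume (thickening δ K)).toReal / Real.log δ

/-- Lower Minkowski dimension. -/
noncomputable def lowerM (K : Set (E n)) : EReal :=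
  liminf (fun δ : ℝ => ((mexp K δ : ℝ) : EReal)) (𝓝[>] 0)

/-- Upper Minkowski dimension. -/
noncomputable def upperM (K : Set (E n)) : EReal :=
  limsup (fun δ : ℝ => ((mexp K δ : ℝ) : EReal)) (𝓝[>] 0)

/-- volume of the neighbourhood -/
noncomputable def V (K : Set (E n)) (δ : ℝ) : ℝ := (volume (thickening δ K)).toReal

theorem V_ne_top (K : KS n) (δ : ℝ) : volume (thickening δ (K.1 : Set (E n))) ≠ ⊤ :=
  (K.1.isCompact.isBounded.thickening.measure_lt_top).ne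

theorem V_ball (K : KS n) {δ : ℝ} (hδ : 0 < δ) :
    δ ^ n * (volume (ball (0 : E n) 1)).toReal ≤ V (K.1 : Set (E n)) δ := by
  obtain ⟨x, hx⟩ := K.1.nonempty
  have h1 : ball x δ ⊆ thickening δ (K.1 : Set (E n)) := ball_subset_thickening hx δ
  have h2 := ENNReal.toReal_mono (V_ne_top K δ) (measure_mono (μ := MeasureTheory.volume) h1)
  rw [Measure.addHaar_ball_of_pos _ _ hδ, finrank_euclideanSpace_fin, ENNReal.toReal_mul,
    ENNReal.toReal_ofReal (by positivity)] at h2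
  exact h2

theorem omega_pos : 0 < (volume (ball (0 : E n) 1)).toReal :=
  ENNReal.toReal_pos (measure_ball_pos _ _ one_pos).ne' measure_ball_lt_top.ne

theorem V_pos (K : KS n) {δ : ℝ} (hδ : 0 < δ) : 0 < V (K.1 : Set (E n)) δ :=
  lt_of_lt_of_le (mul_pos (by positivity) omega_pos) (V_ball K hδ)

theorem mexp_lt (K : KS n) {δ : ℝ} (hδ : 0 < δ) (hδ1 : δ < 1) (s : ℝ) :
    mexp (K.1 : Set (E n)) δ < s ↔ V (K.1 : Set (E n)) δ < δ ^ ((n:ℝ) - s) := by
  have hl : Real.log δ < 0 := Real.log_neg hδ hδ1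
  have hV := V_pos K hδ
  unfold mexp
  rw [← V, ← Real.log_lt_log_iff hV (by positivity), Real.log_rpow hδ]
  constructor
  · intro h
    have h1 : (n:ℝ) - s < Real.log (V (K.1 : Set (E n)) δ) / Real.log δ := by linarith
    rwa [lt_div_iff_of_neg hl] at h1
  · intro h
    have h1 : (n:ℝ) - s < Real.log (V (K.1 : Set (E n)) δ) / Real.log δ := by
      rwa [lt_div_iff_of_neg hl]
    linarith

theorem lt_mexp (K : KS n) {δ : ℝ} (hδ : 0 < δ) (hδ1 : δ < 1) (s : ℝ) :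
    s < mexp (K.1 : Set (E n)) δ ↔ δ ^ ((n:ℝ) - s) < V (K.1 : Set (E n)) δ := by
  have hl : Real.log δ < 0 := Real.log_neg hδ hδ1
  have hV := V_pos K hδ
  unfold mexp
  rw [← V, ← Real.log_lt_log_iff (by positivity) hV, Real.log_rpow hδ]
  constructor
  · intro h
    have h1 : Real.log (V (K.1 : Set (E n)) δ) / Real.log δ < (n:ℝ) - s := by linarith
    rwa [div_lt_iff_of_neg hl] at h1
  · intro h
    have h1 : Real.log (V (K.1 : Set (E n)) δ) / Real.log δ < (n:ℝ) - s := by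
      rwa [div_lt_iff_of_neg hl]
    linarith

/-- small neighbourhoods -/
def Sm (s : ℝ) (m : ℕ) : Set (KS n) :=
  {K | ∃ δ : ℝ, 0 < δ ∧ δ < 1 / ((m:ℝ) + 1) ∧ V (K.1 : Set (E n)) δ < δ ^ ((n:ℝ) - s)}

/-- large neighbourhoods -/
def La (s : ℝ) (m : ℕ) : Set (KS n) :=
  {K | ∃ δ : ℝ, 0 < δ ∧ δ < 1 / ((m:ℝ) + 1) ∧ δ ^ ((n:ℝ) - s) < V (K.1 : Set (E n)) δ}

theorem V_mono {K L : KS n} {r δ : ℝ} (h : dist K L < r) :
    V (K.1 : Set (E n)) δ ≤ V (L.1 : Set (E n)) (δ + r) := by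
  apply ENNReal.toReal_mono (V_ne_top _ _)
  apply measure_mono
  refine (thickening_subset_of_subset δ (sub_thick h)).trans ?_
  exact thickening_thickening_subset _ _ _

theorem isOpen_Sm (s : ℝ) (m : ℕ) : IsOpen (Sm s m : Set (KS n)) := by
  rw [Metric.isOpen_iff]
  rintro K ⟨δ, h1, h2, h3⟩
  have hc : ContinuousAt (fun x : ℝ => x ^ ((n:ℝ) - s)) δ :=
    Real.continuousAt_rpow_const _ _ (Or.inl h1.ne')
  have hev := hc.eventually (lt_mem_nhds h3)
  obtain ⟨δ', hδ', hlt⟩ := ((hev.filter_mono (nhdsWithin_le_nhds (s := Iio δ))).and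
    (Ioo_mem_nhdsLT h1)).exists
  refine ⟨δ - δ', by linarith [hlt.2], fun L hL => ⟨δ', hlt.1, hlt.2.trans h2, ?_⟩⟩
  have h4 := V_mono (δ := δ') hL
  rw [add_sub_cancel] at h4
  exact lt_of_le_of_lt h4 hδ'

theorem isOpen_La (s : ℝ) (m : ℕ) : IsOpen (La s m : Set (KS n)) := by
  rw [Metric.isOpen_iff]
  rintro K ⟨δ, h1, h2, h3⟩
  have hc : ContinuousAt (fun x : ℝ => x ^ ((n:ℝ) - s)) δ :=
    Real.continuousAt_rpow_const _ _ (Or.inl h1.ne')
  have hev := hc.eventually (gt_mem_nhds h3)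
  obtain ⟨δ', hδ', hlt⟩ := ((hev.filter_mono (nhdsWithin_le_nhds (s := Ioi δ))).and
    (Ioo_mem_nhdsGT h2)).exists
  refine ⟨δ' - δ, by linarith [hlt.1], fun L hL => ⟨δ', h1.trans hlt.1, hlt.2, ?_⟩⟩
  rw [mem_ball, dist_comm] at hL
  have h4 := V_mono (δ := δ) hL
  rw [add_sub_cancel] at h4
  exact lt_of_lt_of_le hδ' h4

theorem rpow_small {a : ℝ} (ha : 0 < a) : Tendsto (fun x : ℝ => x ^ a) (𝓝[>] 0) (𝓝 0) := by
  have h1 := (Real.continuousAt_rpow_const 0 a (Or.inr ha.le)).tendsto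
  rw [Real.zero_rpow ha.ne'] at h1
  exact h1.mono_left nhdsWithin_le_nhds

theorem dense_Sm {s : ℝ} {K₀ : KS n} (hK₀ : lowerM (K₀.1 : Set (E n)) < (s : EReal)) (m : ℕ) :
    Dense (Sm s m : Set (KS n)) := by
  rw [Metric.dense_iff]
  intro K r hr
  obtain ⟨K', h1, h2⟩ := dense_step' K K₀ hr
  refine ⟨K', h1, ?_⟩
  obtain ⟨C, M, hC, hM, hvol⟩ := h2.vol
  obtain ⟨s', hs1, hs2⟩ := EReal.lt_iff_exists_real_btwn.1 hK₀
  have hs3 : s' < s := by exact_mod_cast hs2
  have hfreq := frequently_lt_of_liminf_lt (by isBoundedDefault) hs1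
  have hM0 : 0 < M := by linarith
  set ω := (volume (ball (0 : E n) 1)).toReal with hω
  have hω0 : 0 < ω := omega_pos
  set B : ℝ := C / ω + C with hB
  have hB0 : 0 < B := by positivity
  have hpos : 0 < (1 / M) ^ ((n:ℝ) - s) / B := by positivity
  have hev1 : ∀ᶠ x : ℝ in 𝓝[>] 0, x ^ (s - s') < (1 / M) ^ ((n:ℝ) - s) / B :=
    (rpow_small (by linarith : 0 < s - s')).eventually (gt_mem_nhds hpos)
  have hm : (0:ℝ) < 1 / ((m:ℝ) + 1) := by positivity
  have hev2 : ∀ᶠ x : ℝ in 𝓝[>] 0, x ∈ Ioo 0 (min 1 (1 / ((m:ℝ) + 1))) :=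
    Ioo_mem_nhdsGT (lt_min one_pos hm)
  obtain ⟨x, hx1, hx2, hx3⟩ := (hfreq.and_eventually (hev1.and hev2)).exists
  have hx0 : 0 < x := hx3.1
  have hx4 : x < 1 := hx3.2.trans_le (min_le_left _ _)
  have hx5 : x < 1 / ((m:ℝ) + 1) := hx3.2.trans_le (min_le_right _ _)
  have hx6 : mexp (K₀.1 : Set (E n)) x < s' := by exact_mod_cast hx1
  rw [mexp_lt K₀ hx0 hx4] at hx6
  have hδ0 : 0 < x / M := by positivity
  refine ⟨x / M, hδ0, ?_, ?_⟩
  · exact (div_le_self hx0.le hM).trans_lt hx5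
  · have h3 := hvol (x / M) hδ0
    have h4 : M * (x / M) = x := by field_simp
    rw [h4] at h3
    have h5 : V (K'.1 : Set (E n)) (x / M) ≤ C * (x / M) ^ n + C * V (K₀.1 : Set (E n)) x := by
      have h6 := ENNReal.toReal_mono (ENNReal.add_ne_top.2 ⟨ENNReal.ofReal_ne_top,
        ENNReal.mul_ne_top ENNReal.ofReal_ne_top (V_ne_top K₀ x)⟩) h3
      rwa [ENNReal.toReal_add ENNReal.ofReal_ne_top
        (ENNReal.mul_ne_top ENNReal.ofReal_ne_top (V_ne_top K₀ x)), ENNReal.toReal_mul,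
        ENNReal.toReal_ofReal (by positivity), ENNReal.toReal_ofReal hC.le] at h6
    have h6 : C * (x / M) ^ n ≤ C / ω * V (K₀.1 : Set (E n)) x := by
      have h7 := V_ball K₀ hx0
      rw [← hω] at h7
      have h8 : (x / M) ^ n ≤ x ^ n := pow_le_pow_left₀ hδ0.le (div_le_self hx0.le hM) _
      calc C * (x / M) ^ n ≤ C * x ^ n := by gcongr
        _ = C / ω * (x ^ n * ω) := by field_simp
        _ ≤ _ := by gcongr
    have h7 : V (K'.1 : Set (E n)) (x / M) ≤ B * V (K₀.1 : Set (E n)) x := by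
      rw [hB, add_mul]; linarith
    have h8 : B * x ^ ((n:ℝ) - s') ≤ (x / M) ^ ((n:ℝ) - s) := by
      have h9 : x ^ ((n:ℝ) - s') = x ^ (s - s') * x ^ ((n:ℝ) - s) := by
        rw [← Real.rpow_add hx0]; congr 1; ring
      have h10 : (x / M) ^ ((n:ℝ) - s) = (1 / M) ^ ((n:ℝ) - s) * x ^ ((n:ℝ) - s) := by
        rw [← Real.mul_rpow (by positivity) hx0.le]; congr 1; ring
      rw [h9, h10]
      rw [lt_div_iff₀ hB0] at hx2
      have h11 : 0 < x ^ ((n:ℝ) - s) := by positivity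
      nlinarith
    calc V (K'.1 : Set (E n)) (x / M) ≤ B * V (K₀.1 : Set (E n)) x := h7
      _ < B * x ^ ((n:ℝ) - s') := by gcongr
      _ ≤ _ := h8

theorem dense_La {s : ℝ} (hs : s < n) (m : ℕ) : Dense (La s m : Set (KS n)) := by
  rw [Metric.dense_iff]
  intro K r hr
  have hr2 : 0 < r / 2 := by positivity
  obtain ⟨x, hx⟩ := K.1.nonempty
  have hcomp : IsCompact (cthickening (r / 2) (K.1 : Set (E n))) := K.1.isCompact.cthickening
  have hsub : (K.1 : Set (E n)) ⊆ cthickening (r / 2) (K.1 : Set (E n)) :=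
    self_subset_cthickening _
  have hsegs : HasSegs (cthickening (r / 2) (K.1 : Set (E n))) := by
    intro e he
    obtain ⟨a, ha⟩ := K.2 e he
    exact ⟨a, fun t ht => hsub (ha t ht)⟩
  set K' : KS n := mkKS hcomp hsegs ⟨x, hsub hx⟩ with hK'
  have hK'1 : (K'.1 : Set (E n)) = cthickening (r / 2) (K.1 : Set (E n)) := rfl
  refine ⟨K', ?_, ?_⟩
  · have h7 : dist K' K ≤ r / 2 := by
      rw [Subtype.dist_eq, NonemptyCompacts.dist_eq]
      refine hausdorffDist_le_of_mem_dist hr2.le ?_ ?_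
      · intro y hy
        rw [hK'1, K.1.isCompact.cthickening_eq_biUnion_closedBall hr2.le] at hy
        obtain ⟨z, hz, hyz⟩ := mem_iUnion₂.1 hy
        exact ⟨z, hz, hyz⟩
      · intro y hy
        exact ⟨y, hsub hy, by rw [dist_self]; exact hr2.le⟩
    rw [mem_ball]
    linarith
  · set v := (volume (ball x (r / 2))).toReal with hv
    have hv0 : 0 < v := ENNReal.toReal_pos (measure_ball_pos _ _ hr2).ne' measure_ball_lt_top.ne
    have hev1 : ∀ᶠ x : ℝ in 𝓝[>] 0, x ^ ((n:ℝ) - s) < v :=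
      (rpow_small (by linarith : 0 < (n:ℝ) - s)).eventually (gt_mem_nhds hv0)
    have hm : (0:ℝ) < 1 / ((m:ℝ) + 1) := by positivity
    have hev2 : ∀ᶠ x : ℝ in 𝓝[>] 0, x ∈ Ioo 0 (1 / ((m:ℝ) + 1)) := Ioo_mem_nhdsGT hm
    obtain ⟨δ, h1, h2⟩ := (hev1.and hev2).exists
    refine ⟨δ, h2.1, h2.2, lt_of_lt_of_le h1 ?_⟩
    apply ENNReal.toReal_mono (V_ne_top _ _)
    apply measure_mono
    refine (ball_subset_thickening hx _).trans ?_
    refine (thickening_subset_cthickening _ _).trans ?_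
    rw [← hK'1]
    exact self_subset_thickening h2.1 _

theorem freq_of {p : ℝ → Prop} (h : ∀ m : ℕ, ∃ δ : ℝ, 0 < δ ∧ δ < 1 / ((m:ℝ) + 1) ∧ p δ) :
    ∃ᶠ δ : ℝ in 𝓝[>] 0, p δ := by
  rw [(nhdsGT_basis (0:ℝ)).frequently_iff]
  intro ε hε
  obtain ⟨m, hm⟩ := exists_nat_one_div_lt hε
  obtain ⟨δ, h1, h2, h3⟩ := h m
  exact ⟨δ, ⟨h1, h2.trans hm⟩, h3⟩

theorem inv_le_one (m : ℕ) : 1 / ((m:ℝ) + 1) ≤ 1 := by
  rw [div_le_one (by positivity)]
  have : (0:ℝ) ≤ m := by positivity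
  linarith

theorem typical_lowerM : ∀ᶠ K in residual (KS n), ∀ K' : KS n,
    lowerM (K.1 : Set (E n)) ≤ lowerM (K'.1 : Set (E n)) := by
  have h1 : ∀ q : ℚ, ∀ᶠ K in residual (KS n), ∀ K' : KS n,
      lowerM (K'.1 : Set (E n)) < (((q:ℝ)) : EReal) →
        lowerM (K.1 : Set (E n)) ≤ (((q:ℝ)) : EReal) := by
    intro q
    by_cases hq : ∃ K' : KS n, lowerM (K'.1 : Set (E n)) < (((q:ℝ)) : EReal)
    · obtain ⟨K₀, hK₀⟩ := hq
      have h2 : ∀ m : ℕ, ∀ᶠ K in residual (KS n), K ∈ Sm (q:ℝ) m := by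
        intro m
        exact residual_of_dense_open (isOpen_Sm _ _) (dense_Sm hK₀ m)
      rw [← eventually_countable_forall] at h2
      filter_upwards [h2] with K hK K' _
      refine liminf_le_of_frequently_le' (freq_of fun m => ?_)
      obtain ⟨δ, h3, h4, h5⟩ := hK m
      refine ⟨δ, h3, h4, ?_⟩
      rw [← mexp_lt K h3 (h4.trans_le (inv_le_one m))] at h5
      exact_mod_cast h5.le
    · push Not at hq
      exact Eventually.of_forall fun K K' hK' => absurd hK' (not_lt.2 (hq K'))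
  rw [← eventually_countable_forall] at h1
  filter_upwards [h1] with K hK K'
  by_contra hcon
  push Not at hcon
  obtain ⟨q, hq1, hq2⟩ := EReal.lt_iff_exists_rat_btwn.1 hcon
  exact absurd (hK q K' hq1) (not_le.2 hq2)

theorem upperM_le (K : KS n) : upperM (K.1 : Set (E n)) ≤ (n : EReal) := by
  rw [← EReal.le_of_forall_lt_iff_le]
  intro z hz
  have hz' : (n:ℝ) < z := by exact_mod_cast hz
  set A := V (K.1 : Set (E n)) 1 with hA
  have hA0 : 0 < A := V_pos K one_pos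
  have hev1 : ∀ᶠ x : ℝ in 𝓝[>] 0, x ^ (z - n) < 1 / A :=
    (rpow_small (by linarith : 0 < z - n)).eventually (gt_mem_nhds (by positivity))
  have hev2 : ∀ᶠ x : ℝ in 𝓝[>] 0, x ∈ Ioo (0:ℝ) 1 := Ioo_mem_nhdsGT one_pos
  refine limsup_le_of_le (by isBoundedDefault) ?_
  filter_upwards [hev1, hev2] with x hx1 hx2
  have h1 : mexp (K.1 : Set (E n)) x < z := by
    rw [mexp_lt K hx2.1 hx2.2]
    have h2 : V (K.1 : Set (E n)) x ≤ A :=
      ENNReal.toReal_mono (V_ne_top _ _) (measure_mono (thickening_mono hx2.2.le _))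
    have h3 : x ^ ((n:ℝ) - z) = (x ^ (z - n))⁻¹ := by
      rw [← Real.rpow_neg hx2.1.le]; congr 1; ring
    rw [h3]
    refine lt_of_le_of_lt h2 ?_
    have h4 : 0 < x ^ (z - n) := Real.rpow_pos_of_pos hx2.1 _
    rw [lt_inv_comm₀ hA0 h4]
    rwa [one_div] at hx1
  exact_mod_cast h1.le

theorem typical_upperM : ∀ᶠ K in residual (KS n), upperM (K.1 : Set (E n)) = (n : EReal) := by
  have h1 : ∀ q : ℚ, ∀ᶠ K in residual (KS n), ((q:ℝ)) < n →
      (((q:ℝ)) : EReal) ≤ upperM (K.1 : Set (E n)) := by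
    intro q
    by_cases hq : (q:ℝ) < n
    · have h2 : ∀ m : ℕ, ∀ᶠ K in residual (KS n), K ∈ La (q:ℝ) m := by
        intro m
        exact residual_of_dense_open (isOpen_La _ _) (dense_La hq m)
      rw [← eventually_countable_forall] at h2
      filter_upwards [h2] with K hK _
      refine le_limsup_of_frequently_le' (freq_of fun m => ?_)
      obtain ⟨δ, h3, h4, h5⟩ := hK m
      refine ⟨δ, h3, h4, ?_⟩
      rw [← lt_mexp K h3 (h4.trans_le (inv_le_one m))] at h5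
      exact_mod_cast h5.le
    · exact Eventually.of_forall fun K h => absurd h hq
  rw [← eventually_countable_forall] at h1
  filter_upwards [h1] with K hK
  refine le_antisymm (upperM_le K) ?_
  by_contra hcon
  push Not at hcon
  obtain ⟨q, hq1, hq2⟩ := EReal.lt_iff_exists_rat_btwn.1 hcon
  have hq3 : (q:ℝ) < n := by exact_mod_cast hq2
  exact absurd (hK q hq3) (not_le.2 hq1)

theorem lowerM_le_upperM (K : Set (E n)) : lowerM K ≤ upperM K :=
  liminf_le_limsup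

end Pool.Agent.R251.Typ
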