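import Mathlib

set_option autoImplicit false

/-! Thin pieces with all directions near a given one. -/

open MeasureTheory Set Metric
open scoped ENNReal NNReal

namespace Pool.Agent.R251.Typ

variable {n : ℕ}

/-- Euclidean space. -/
abbrev E (n : ℕ) : Type := EuclideanSpace ℝ (Fin n)

/-- unit segments in all directions -/
def HasSegs (K : Set (E n)) : Prop :=
  ∀ e : E n, ‖e‖ = 1 → ∃ a : E n, ∀ t ∈ Icc (0:ℝ) 1, a + t • e ∈ K

/-- the map -/
noncomputable def fwd (lam : ℝ) (e₀ : E n) : E n →L[ℝ] E n :=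
  (2 * lam) • ContinuousLinearMap.id ℝ (E n) +
    (2 * (1 - lam)) • (innerSL ℝ e₀).smulRight e₀

/-- its inverse -/
noncomputable def bwd (lam : ℝ) (e₀ : E n) : E n →L[ℝ] E n :=
  (1 / (2 * lam)) • ContinuousLinearMap.id ℝ (E n) +
    ((1 / 2) * (1 - 1 / lam)) • (innerSL ℝ e₀).smulRight e₀

theorem fwd_apply (lam : ℝ) (e₀ x : E n) :
    fwd lam e₀ x = (2 * lam) • x + (2 * (1 - lam) * inner ℝ e₀ x) • e₀ := by
  simp [fwd, smul_smul]

theorem bwd_apply (lam : ℝ) (e₀ x : E n) :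
    bwd lam e₀ x = (1 / (2 * lam)) • x + ((1 / 2) * (1 - 1 / lam) * inner ℝ e₀ x) • e₀ := by
  simp [bwd, smul_smul]

/-- as an equivalence -/
noncomputable def eqv {lam : ℝ} (hl : 0 < lam) {e₀ : E n} (he : ‖e₀‖ = 1) : E n ≃L[ℝ] E n :=
  ContinuousLinearEquiv.equivOfInverse (fwd lam e₀) (bwd lam e₀)
    (fun x => by
      have h1 : (inner ℝ e₀ e₀ : ℝ) = 1 := by rw [real_inner_self_eq_norm_sq, he]; norm_num
      rw [fwd_apply, bwd_apply, inner_add_right, inner_smul_right, inner_smul_right, h1,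
        smul_add, smul_smul, smul_smul, add_assoc, ← add_smul]
      have e1 : 1 / (2 * lam) * (2 * lam) = 1 := by field_simp
      have e2 : 1 / (2 * lam) * (2 * (1 - lam) * inner ℝ e₀ x) +
          1 / 2 * (1 - 1 / lam) * (2 * lam * inner ℝ e₀ x + 2 * (1 - lam) * inner ℝ e₀ x * 1) = 0 := by
        field_simp
        ring
      rw [e1, e2, one_smul, zero_smul, add_zero])
    (fun x => by
      have h1 : (inner ℝ e₀ e₀ : ℝ) = 1 := by rw [real_inner_self_eq_norm_sq, he]; norm_num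
      rw [fwd_apply, bwd_apply, inner_add_right, inner_smul_right, inner_smul_right, h1,
        smul_add, smul_smul, smul_smul, add_assoc, ← add_smul]
      have e1 : 2 * lam * (1 / (2 * lam)) = 1 := by field_simp
      have e2 : 2 * lam * (1 / 2 * (1 - 1 / lam) * inner ℝ e₀ x) +
          2 * (1 - lam) * (1 / (2 * lam) * inner ℝ e₀ x +
            1 / 2 * (1 - 1 / lam) * inner ℝ e₀ x * 1) = 0 := by
        field_simp
        ring
      rw [e1, e2, one_smul, zero_smul, add_zero])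

theorem eqv_apply {lam : ℝ} (hl : 0 < lam) {e₀ : E n} (he : ‖e₀‖ = 1) (x : E n) :
    eqv hl he x = (2 * lam) • x + (2 * (1 - lam) * inner ℝ e₀ x) • e₀ := fwd_apply _ _ _

theorem piece {K₀ : Set (E n)} (hc : Bornology.IsBounded K₀) (hs : HasSegs K₀) {e₀ : E n}
    (he₀ : ‖e₀‖ = 1) {η : ℝ} (hη : 0 < η) :
    ∃ r : ℝ, 0 < r ∧ ∃ J : Finset ((E n ≃L[ℝ] E n) × E n), ∀ e : E n, ‖e‖ = 1 → ‖e - e₀‖ < r →
      ∃ c : E n, ∀ t ∈ Icc (0:ℝ) 1, (c + t • e ∈ ⋃ g ∈ J, (fun x => g.1 x + g.2) '' K₀) ∧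
        ‖c + t • e - t • e₀‖ ≤ η := by
  classical
  obtain ⟨R, hR0, hR⟩ : ∃ R : ℝ, 1 ≤ R ∧ ∀ x ∈ K₀, ‖x‖ ≤ R := by
    obtain ⟨R, hR⟩ := hc.exists_norm_le
    exact ⟨max R 1, le_max_right _ _, fun x hx => (hR x hx).trans (le_max_left _ _)⟩
  have hRpos : 0 < R := by linarith
  set lam : ℝ := min (1 / 2) (η / (8 * R)) with hlam
  have hl : 0 < lam := lt_min (by norm_num) (by positivity)
  have hl1 : lam ≤ 1 / 2 := min_le_left _ _
  have hl2 : 2 * lam * R ≤ η / 4 := by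
    have : lam ≤ η / (8 * R) := min_le_right _ _
    calc 2 * lam * R ≤ 2 * (η / (8 * R)) * R := by gcongr
      _ = η / 4 := by field_simp; ring
  set T := eqv hl he₀ with hT
  set M : ℕ := ⌈2 * R / (η / 4)⌉₊ + 1 with hM
  set J : Finset ((E n ≃L[ℝ] E n) × E n) :=
    (Finset.Icc (-(M:ℤ)) M).image fun m : ℤ => (T, -(((m:ℝ) * (η / 4)) • e₀)) with hJ
  refine ⟨min (lam / 2) (η / 4), lt_min (by positivity) (by positivity), J, ?_⟩
  intro e he hee
  have hr1 : ‖e - e₀‖ < lam / 2 := lt_of_lt_of_le hee (min_le_left _ _)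
  have hr2 : ‖e - e₀‖ < η / 4 := lt_of_lt_of_le hee (min_le_right _ _)
  set w : E n := T.symm ((2:ℝ) • e) with hw
  have hTw : T w = (2:ℝ) • e := by rw [hw, ContinuousLinearEquiv.apply_symm_apply]
  have he0 : e ≠ 0 := by
    intro h; rw [h, norm_zero] at he; norm_num at he
  have hw0 : w ≠ 0 := by
    intro h
    rw [h, map_zero] at hTw
    have := smul_eq_zero.1 hTw.symm
    rcases this with h1 | h1
    · norm_num at h1
    · exact he0 h1
  have hwn : 0 < ‖w‖ := norm_pos_iff.2 hw0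
  -- `‖w‖ ≤ 2`
  have hwval : w = inner ℝ e₀ e • e₀ + (1 / lam) • (e - inner ℝ e₀ e • e₀) := by
    apply T.injective
    have h1 : (inner ℝ e₀ e₀ : ℝ) = 1 := by rw [real_inner_self_eq_norm_sq, he₀]; norm_num
    rw [hTw, eqv_apply, inner_add_right, inner_smul_right, inner_smul_right, inner_sub_right,
      inner_smul_right, h1, smul_add, smul_smul, smul_smul, smul_sub, smul_smul]
    have e1 : 2 * lam * (1 / lam) = 2 := by field_simp
    rw [e1]
    have e2 : (inner ℝ e₀ e * 1 + 1 / lam * (inner ℝ e₀ e - inner ℝ e₀ e * 1) : ℝ) =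
      inner ℝ e₀ e := by ring
    rw [e2]
    module
  have hin : |(inner ℝ e₀ e : ℝ) - 1| ≤ ‖e - e₀‖ := by
    have h1 : (inner ℝ e₀ e₀ : ℝ) = 1 := by rw [real_inner_self_eq_norm_sq, he₀]; norm_num
    have h2 : (inner ℝ e₀ e : ℝ) - 1 = inner ℝ e₀ (e - e₀) := by
      rw [inner_sub_right, h1]
    rw [h2]
    refine (abs_real_inner_le_norm _ _).trans ?_
    rw [he₀, one_mul]
  have hperp : ‖e - (inner ℝ e₀ e : ℝ) • e₀‖ ≤ 2 * ‖e - e₀‖ := by
    have h1 : e - (inner ℝ e₀ e : ℝ) • e₀ = (e - e₀) - ((inner ℝ e₀ e : ℝ) - 1) • e₀ := by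
      rw [sub_smul, one_smul]; abel
    rw [h1]
    refine (norm_sub_le _ _).trans ?_
    rw [norm_smul, he₀, mul_one, Real.norm_eq_abs]
    linarith
  have hw2 : ‖w‖ ≤ 2 := by
    rw [hwval]
    refine (norm_add_le _ _).trans ?_
    rw [norm_smul, norm_smul, he₀, mul_one, Real.norm_of_nonneg (by positivity : (0:ℝ) ≤ 1 / lam)]
    have h1 : ‖(inner ℝ e₀ e : ℝ)‖ ≤ 1 := by
      have := norm_inner_le_norm (𝕜 := ℝ) e₀ e
      rwa [he₀, he, one_mul] at this
    have h2 : 1 / lam * ‖e - (inner ℝ e₀ e : ℝ) • e₀‖ ≤ 1 := by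
      calc 1 / lam * ‖e - (inner ℝ e₀ e : ℝ) • e₀‖ ≤ 1 / lam * (2 * ‖e - e₀‖) := by gcongr
        _ ≤ 1 / lam * (2 * (lam / 2)) := by gcongr
        _ = 1 := by field_simp
    linarith
  obtain ⟨b, hb⟩ := hs (‖w‖⁻¹ • w) (by
    rw [norm_smul, norm_inv, norm_norm, inv_mul_cancel₀ hwn.ne'])
  have hbn : ‖b‖ ≤ R := by
    have := hb 0 ⟨le_rfl, zero_le_one⟩
    rw [zero_smul, add_zero] at this
    exact hR b this
  set h : ℝ := 2 * (1 - lam) * inner ℝ e₀ b with hh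
  have hhabs : |h| ≤ 2 * R := by
    rw [hh, abs_mul, abs_mul, abs_of_nonneg (by norm_num : (0:ℝ) ≤ 2),
      abs_of_nonneg (by linarith : (0:ℝ) ≤ 1 - lam)]
    have h1 : |(inner ℝ e₀ b : ℝ)| ≤ R := by
      refine (abs_real_inner_le_norm _ _).trans ?_
      rw [he₀, one_mul]; exact hbn
    have h2 : 1 - lam ≤ 1 := by linarith
    have h3 : 0 ≤ 1 - lam := by linarith
    nlinarith [abs_nonneg (inner ℝ e₀ b : ℝ)]
  have hη4 : 0 < η / 4 := by positivity
  set m : ℤ := ⌊h / (η / 4)⌋ with hm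
  have hm1 : (m:ℝ) * (η / 4) ≤ h := by
    have := Int.floor_le (h / (η / 4))
    rwa [le_div_iff₀ hη4] at this
  have hm2 : h < ((m:ℝ) + 1) * (η / 4) := by
    have := Int.lt_floor_add_one (h / (η / 4))
    rwa [div_lt_iff₀ hη4] at this
  have hmM : m ∈ Finset.Icc (-(M:ℤ)) M := by
    have hc1 : 2 * R / (η / 4) ≤ (⌈2 * R / (η / 4)⌉₊ : ℝ) := Nat.le_ceil _
    have hc2 : 2 * R ≤ (⌈2 * R / (η / 4)⌉₊ : ℝ) * (η / 4) := by
      rwa [div_le_iff₀ hη4] at hc1
    have habs := abs_le.1 hhabs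
    rw [Finset.mem_Icc]
    constructor
    · have h1 : -((⌈2 * R / (η / 4)⌉₊ : ℝ) + 1) < m := by
        by_contra hcon
        push Not at hcon
        have : ((m:ℝ) + 1) * (η / 4) ≤ -(⌈2 * R / (η / 4)⌉₊ : ℝ) * (η / 4) := by
          gcongr
          linarith
        linarith
      have h2 : (-((⌈2 * R / (η / 4)⌉₊ : ℤ) + 1) : ℤ) < m := by exact_mod_cast h1
      rw [hM]
      push_cast
      linarith
    · have h1 : (m:ℝ) < (⌈2 * R / (η / 4)⌉₊ : ℝ) + 1 := by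
        by_contra hcon
        push Not at hcon
        have : ((⌈2 * R / (η / 4)⌉₊ : ℝ) + 1) * (η / 4) ≤ (m:ℝ) * (η / 4) := by gcongr
        nlinarith
      have h2 : m < (⌈2 * R / (η / 4)⌉₊ : ℤ) + 1 := by exact_mod_cast h1
      rw [hM]
      push_cast
      linarith
  refine ⟨T b + -(((m:ℝ) * (η / 4)) • e₀), ?_⟩
  intro t ht
  constructor
  · refine mem_iUnion₂.2 ⟨(T, -(((m:ℝ) * (η / 4)) • e₀)), ?_, b + (t * (‖w‖ / 2)) • (‖w‖⁻¹ • w), ?_, ?_⟩
    · rw [hJ]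
      exact Finset.mem_image.2 ⟨m, hmM, rfl⟩
    · apply hb
      constructor
      · exact mul_nonneg ht.1 (by positivity)
      · calc t * (‖w‖ / 2) ≤ 1 * (2 / 2) := by
              apply mul_le_mul ht.2 (by linarith) (by positivity) (by norm_num)
          _ = 1 := by norm_num
    · show T (b + (t * (‖w‖ / 2)) • (‖w‖⁻¹ • w)) + -(((m:ℝ) * (η / 4)) • e₀) = _
      rw [map_add, map_smul, map_smul, hTw, smul_smul, smul_smul]
      have : t * (‖w‖ / 2) * ‖w‖⁻¹ * 2 = t := by field_simp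
      rw [this]
      abel
  · rw [eqv_apply, ← hh]
    have e1 : (2 * lam) • b + h • e₀ + -(((m:ℝ) * (η / 4)) • e₀) + t • e - t • e₀ =
        (2 * lam) • b + (h - (m:ℝ) * (η / 4)) • e₀ + t • (e - e₀) := by module
    rw [e1]
    refine (norm_add_le _ _).trans ?_
    have h1 := norm_add_le ((2 * lam) • b) ((h - (m:ℝ) * (η / 4)) • e₀)
    have h2 : ‖(2 * lam) • b‖ ≤ η / 4 := by
      rw [norm_smul, Real.norm_of_nonneg (by positivity : (0:ℝ) ≤ 2 * lam)]
      exact le_trans (by gcongr) hl2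
    have h3 : ‖(h - (m:ℝ) * (η / 4)) • e₀‖ ≤ η / 4 := by
      rw [norm_smul, he₀, mul_one, Real.norm_of_nonneg (by linarith)]
      linarith
    have h4 : ‖t • (e - e₀)‖ ≤ η / 4 := by
      rw [norm_smul, Real.norm_of_nonneg ht.1]
      calc t * ‖e - e₀‖ ≤ 1 * (η / 4) := by
            apply mul_le_mul ht.2 hr2.le (norm_nonneg _) (by norm_num)
        _ = η / 4 := one_mul _
    linarith

end Pool.Agent.R251.Typ
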